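import Pool.Agent.Q130.SF.Ext
import Pool.Agent.Q130.SF.Cls

/-!
# Extension of families of forms
-/

set_option autoImplicit false

open Set Filter Topology MeasureTheory
open scoped Manifold ContDiff

noncomputable section

namespace Pool.Agent.U896.VF

open Pool.Agent.Y501.SY
open Pool.Agent.Q130.SF

section

variable {d : ℕ} {X : Type} [TopologicalSpace X] [ChartedSpace (E d) X] {P : Type}
  [TopologicalSpace P]

theorem extendG [CompactSpace P] [T2Space P] {Q N : Set P} (hQ : IsClosed Q)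
    (hN : IsOpen N) (hQN : Q ⊆ N) {r : P → P} (hr : ContinuousOn r N) (hrQ : ∀ p ∈ N, r p ∈ Q)
    (hrid : ∀ q ∈ Q, r q = q) {η : P → Form d X 2}
    (hη : CFam Q η) (hηs : ∀ q ∈ Q, IsSmooth (η q)) {I : Type} {w : I → Form d X 2}
    (hws : ∀ i, IsSmooth (w i)) {H : I → Set P} (hH : ∀ i, IsOpen (H i))
    (hHc : ∀ p, ∃ i, p ∈ H i) :
    ∃ Ω : P → Form d X 2, (∀ q ∈ Q, Ω q = η q) ∧ CFam univ Ω ∧ (∀ p, IsSmooth (Ω p)) ∧
      ∀ p, ∀ C : Set (Form d X 2), Convex ℝ C → (p ∈ N → η (r p) ∈ C) →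
        (∀ i, p ∈ H i → w i ∈ C) → Ω p ∈ C := by
  classical
  -- the pieces
  obtain ⟨B, hB0, hB1⟩ : ∃ B : Option I → P → Form d X 2, (∀ p, B none p = η (r p)) ∧
      ∀ a p, B (some a) p = w a :=
    ⟨fun o p => Option.elim o (η (r p)) fun a => w a, fun _ => rfl, fun _ _ => rfl⟩
  obtain ⟨D, hD0, hD1⟩ : ∃ D : Option I → Set P, D none = N ∧ ∀ a, D (some a) = Qᶜ ∩ H a :=
    ⟨fun o => Option.elim o N fun a => Qᶜ ∩ H a, rfl, fun _ => rfl⟩
  have hDo : ∀ o, IsOpen (D o) := by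
    intro o
    rcases o with _ | a
    · rw [hD0]
      exact hN
    · rw [hD1]
      exact hQ.isOpen_compl.inter (hH a)
  have hBs : ∀ o, ∀ p ∈ D o, IsSmooth (B o p) := by
    intro o p hp
    rcases o with _ | a
    · rw [hB0]
      rw [hD0] at hp
      exact hηs _ (hrQ p hp)
    · rw [hB1]
      exact hws a
  have hBc : ∀ o, CFam (D o) (B o) := by
    intro o
    rcases o with _ | a
    · rw [hD0]
      have h1 : B none = fun p => η (r p) := funext hB0
      rw [h1]
      exact hη.comp hr hrQ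
    · have h1 : B (some a) = fun _ => w a := funext (hB1 a)
      rw [h1]
      exact CFam.const (hws a)
  have hcov : (univ : Set P) ⊆ ⋃ o, D o := by
    intro p _
    by_cases hp : p ∈ Q
    · refine mem_iUnion.2 ⟨none, ?_⟩
      rw [hD0]
      exact hQN hp
    · obtain ⟨i, hi⟩ := hHc p
      refine mem_iUnion.2 ⟨some i, ?_⟩
      rw [hD1]
      exact ⟨hp, hi⟩
  obtain ⟨t, ht⟩ := isCompact_univ.elim_finite_subcover D hDo hcov
  obtain ⟨f, hf⟩ := PartitionOfUnity.exists_isSubordinate isClosed_univ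
    (fun i : {o // o ∈ t} => D i.1) (fun i => hDo i.1) (by
      intro p hp
      obtain ⟨o, ho, hpo⟩ := mem_iUnion₂.1 (ht hp)
      exact mem_iUnion.2 ⟨⟨o, ho⟩, hpo⟩)
  have hfs : ∀ p, ∑ i, f i p = 1 := by
    intro p
    have h1 := f.sum_eq_one (mem_univ p)
    rwa [finsum_eq_sum_of_fintype] at h1
  have hf0 : ∀ i p, f i p ≠ 0 → p ∈ D i.1 := fun i p h =>
    hf i (subset_tsupport _ h)
  obtain ⟨Ω, hΩ⟩ : ∃ Ω : P → Form d X 2, ∀ p, Ω p = ∑ i, f i p • B i.1 p := ⟨_, fun _ => rfl⟩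
  have hcut : ∀ i : {o // o ∈ t}, CFam univ (fun p => f i p • B i.1 p) ∧
      ∀ p, IsSmooth (f i p • B i.1 p) := by
    intro i
    exact CFam.cut (hBc i.1) (hDo i.1) (f i).continuous (hf i) (hBs i.1)
  have hsum := CFam.sum (S := (univ : Set P)) (Finset.univ : Finset {o // o ∈ t})
    (A := fun i p => f i p • B i.1 p) (fun i => (hcut i).1) (fun i p _ => (hcut i).2 p)
  have hΩf : Ω = fun p => ∑ i, f i p • B i.1 p := funext hΩ
  have hconv : ∀ (C : Set (Form d X 2)), Convex ℝ C → ∀ p, (∀ i : {o // o ∈ t}, f i p ≠ 0 →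
      B i.1 p ∈ C) → Ω p ∈ C := by
    intro C hC p h
    rw [hΩ]
    have h1 : ∑ i, f i p • B i.1 p = ∑ i ∈ Finset.univ.filter (fun i => f i p ≠ 0),
        f i p • B i.1 p := by
      rw [Finset.sum_filter_of_ne]
      intro i _ h2 h3
      exact h2 (by rw [h3, zero_smul])
    rw [h1]
    refine hC.sum_mem (fun i _ => f.nonneg i p) ?_ fun i hi => h i (Finset.mem_filter.1 hi).2
    rw [← hfs p, Finset.sum_filter_of_ne]
    intro i _ h2
    exact h2
  refine ⟨Ω, fun q hq => ?_, ?_, fun p => ?_, fun p C hC h1 h2 => ?_⟩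
  · rw [hΩ]
    have h1 : ∀ i : {o // o ∈ t}, f i q • B i.1 q = f i q • η q := by
      rintro ⟨o, ho⟩
      by_cases h0 : f ⟨o, ho⟩ q = 0
      · rw [h0, zero_smul, zero_smul]
      · have h2 := hf0 ⟨o, ho⟩ q h0
        rcases o with _ | a
        · rw [hB0, hrid q hq]
        · change q ∈ D (some a) at h2
          rw [hD1] at h2
          exact absurd hq h2.1
    rw [Finset.sum_congr rfl fun i _ => h1 i, ← Finset.sum_smul, hfs, one_smul]
  · rw [hΩf]
    exact hsum.1
  · rw [hΩ]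
    exact hsum.2 p (mem_univ p)
  · refine hconv C hC p fun i hi => ?_
    have h3 := hf0 i p hi
    rcases i with ⟨o, ho⟩
    rcases o with _ | a
    · change p ∈ D none at h3
      change B none p ∈ C
      rw [hB0]
      rw [hD0] at h3
      exact h1 h3
    · change p ∈ D (some a) at h3
      change B (some a) p ∈ C
      rw [hB1]
      rw [hD1] at h3
      exact h2 a h3.2

end

end Pool.Agent.U896.VF
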