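import Mathlib

/-!
# A symmetric Lebesgue number
-/

set_option autoImplicit false

open Set Filter Topology

namespace Pool.Agent.U896.VF

theorem leb_sym {P : Type} [TopologicalSpace P] [CompactSpace P] [T2Space P] {ι : Type}
    {U : ι → Set P} (hU : ∀ i, IsOpen (U i)) (hc : ∀ p, ∃ i, p ∈ U i) :
    ∃ B : P → Set P, (∀ p, B p ∈ 𝓝 p) ∧ (∀ p q, q ∈ B p → p ∈ B q) ∧ (∀ p, ∃ i, B p ⊆ U i) ∧
      ∀ (N : Set P) (r : P → P), IsOpen N → ContinuousOn r N → ∀ q ∈ N, r q = q →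
        ∀ᶠ p in 𝓝 q, r p ∈ B p := by
  letI : UniformSpace P := uniformSpaceOfCompactR1
  obtain ⟨V, hV, hV1⟩ := lebesgue_number_lemma (isCompact_univ (X := P)) hU
    (fun p _ => mem_iUnion.2 (hc p))
  obtain ⟨W, hW, hWs, hWV⟩ := symm_of_uniformity hV
  refine ⟨fun p => UniformSpace.ball p W, fun p => UniformSpace.ball_mem_nhds p hW,
    fun p q h => ?_, fun p => ?_, fun N r hN hr q hq hrq => ?_⟩
  · exact hWs.symm _ _ h
  · obtain ⟨i, hi⟩ := hV1 p (mem_univ _)
    exact ⟨i, (UniformSpace.ball_mono hWV p).trans hi⟩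
  · have h1 : ContinuousAt (fun p => (p, r p)) q :=
      continuousAt_id.prodMk (hr.continuousAt (hN.mem_nhds hq))
    have h2 : W ∈ 𝓝 (q, r q) := by
      rw [hrq]
      exact nhds_le_uniformity q hW
    exact h1 h2

end Pool.Agent.U896.VF
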