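import Pool.Agent.U896.VM.PubV
import Pool.Agent.U896.SC.PubC
import Pool.Agent.U896.MF.PubMF

/-!
Families of nearly nondegenerate two-forms: the definitions used in the statement.
-/

set_option autoImplicit false

open Set Filter Topology MeasureTheory
open scoped Manifold ContDiff

noncomputable section

namespace Pool.Agent.U896.VFP

open Pool.Agent.Y501.SYP Pool.Agent.U896.SWP Pool.Agent.U896.VMP

variable {d : ℕ} {X : Type} [TopologicalSpace X] [ChartedSpace (ES d) X]

/-- The forms in `S` are nearly nondegenerate together at `x`, and comparable with the forms in `T`: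
in the chart at `x`, for some `c > 0`, on all balls `B(y, t)` with `y` near `x` and `t` small the
forms in `S` are close in the mean to a common convex set `C` of constant forms with the lower bound
`c`, which contains the values at the centre `y` of all forms in `T` (the set `C` depends on the
ball; the mean distance tends to zero, uniformly, as `t` tends to zero). -/
def NearlyTogether (T S : Set (Form (ES d) X 2)) (x : X) : Prop :=
  ∃ c R : ℝ, 0 < c ∧ 0 < R ∧ ∀ δ : ℝ, 0 < δ → ∃ r : ℝ, 0 < r ∧
    ∀ y ∈ Metric.ball (chartAt (ES d) x x) R, ∀ t : ℝ, 0 < t → t ≤ r →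
      ∃ C : Set ((ES d) [⋀^Fin 2]→L[ℝ] ℝ), Convex ℝ C ∧ C.Nonempty ∧
        (∀ η ∈ C, LowerBound c η) ∧ (∀ τ ∈ T, pb (chartAt (ES d) x).symm τ y ∈ C) ∧
        ∀ σ ∈ S, ∫⁻ q in Metric.ball y t,
          ENNReal.ofReal (Metric.infDist (pb (chartAt (ES d) x).symm σ q) C) ∂(leb d) ≤
            ENNReal.ofReal (δ * t ^ d)

end Pool.Agent.U896.VFP
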