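import Pool.Agent.U896.VF.F4
import Pool.Agent.U896.VF.F5
import Pool.Agent.U896.VF.F6
import Pool.Agent.U896.VF.PubF
import Pool.Agent.U896.VT.FinalT
import Pool.Agent.U896.MF.FinalMF

/-!
# Families of nearly nondegenerate forms in a prescribed class
-/

set_option autoImplicit false

open Set Filter Topology MeasureTheory
open scoped Manifold ContDiff

noncomputable section

namespace Pool.Agent.U896.VFP

open Pool.Agent.Y501
open Pool.Agent.Y501.SYP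
open Pool.Agent.U896.SWP
open Pool.Agent.U896.SVP
open Pool.Agent.U896.SCP
open Pool.Agent.U896.VMP
open Pool.Agent.U896.VTP
open Pool.Agent.U896.MFP

section

variable {d : ℕ} {X : Type} [TopologicalSpace X] [ChartedSpace (ES d) X]

attribute [local instance] cs mf

theorem vta_at {I : Type} {A : Set I} {T S : Set (Form (ES d) X 2)} {σ : I → Form (ES d) X 2}
    (hS : ∀ i ∈ A, σ i ∈ S) {x : X} (h : NearlyTogether T S x) :
    VF.VTA (d := d) A (VT.chT (d := d) (X := X) T x)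
      (fun i => SY.pb (d := d) (X := X) (chartAt (SY.E d) x).symm (σ i))
      (chartAt (SY.E d) x x) := by
  obtain ⟨c, R, hc, hR, h1⟩ := h
  refine ⟨c, R, hc, hR, fun δ hδ => ?_⟩
  obtain ⟨r, hr, h2⟩ := h1 δ hδ
  refine ⟨r, hr, fun y hy t ht htr => ?_⟩
  obtain ⟨C, hC1, hC2, hC3, hC4, h3⟩ := h2 y hy t ht htr
  refine ⟨C, ⟨hC1, hC2, hC3⟩, ?_, fun i hi => h3 _ (hS i hi)⟩
  rintro _ ⟨τ, hτ, rfl⟩
  exact hC4 τ hτ

theorem vta_of [IsManifold 𝓘(ℝ, ES d) ∞ X] {I : Type} [Finite I] {A : Set I} {a : ℝ}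
    (ha1 : a < 1) (had : a ≤ d) {T S : Set (Form (ES d) X 2)} {σ₀ : Form (ES d) X 2}
    {σ : I → Form (ES d) X 2} {β : I → Form (ES d) X 1} (hσ₀ : IsSmooth σ₀)
    (hσ₀c : IsClosedForm σ₀) (hi : ∀ i, LocInt (σ i)) (hi1 : ∀ i, LocInt1 (β i))
    (hw : ∀ i, WeaklyPlusD (σ i) σ₀ (β i)) (hM : ∀ i, MorreyGrowth a (σ i))
    (hS : ∀ i ∈ A, σ i ∈ S) (h : ∀ x, NearlyTogether T S x)
    (z : X) (p : SY.E d) (hp : p ∈ (chartAt (SY.E d) z).target) :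
    VF.VTA (d := d) A (VT.chT (d := d) (X := X) T z)
      (fun i => SY.pb (d := d) (X := X) (chartAt (SY.E d) z).symm (σ i)) p := by
  obtain ⟨x, hx⟩ : ∃ x, x = (chartAt (SY.E d) z).symm p := ⟨_, rfl⟩
  have h1 := mem_chart_target (SY.E d) x
  refine VF.VTA.trans (d := d) (X := X) (p₁ := chartAt (SY.E d) x x) ha1 had h1 hp ?_
    (fun i => lcn_of hσ₀ hσ₀c (hi i) (hi1 i) (hw i) x _ h1) (fun i => mor_of (hM i) x _ h1)
    (vta_at hS (h x))
  rw [(chartAt (SY.E d) x).left_inv (mem_chart_source (SY.E d) x), hx]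

theorem morrey_mono {a a' : ℝ} (h : a ≤ a') {σ : Form (ES d) X 2} (hM : MorreyGrowth a σ) :
    MorreyGrowth a' σ := by
  intro z p hp
  obtain ⟨r, C, hr, h1⟩ := hM z p hp
  refine ⟨min r 1, |C|, lt_min hr one_pos, fun q hq t ht htr => ?_⟩
  refine (h1 q (Metric.ball_subset_ball (min_le_left _ _) hq) t ht
    (htr.trans (min_le_left _ _))).trans (ENNReal.ofReal_le_ofReal ?_)
  have h2 : t ^ ((d : ℝ) - a) ≤ t ^ ((d : ℝ) - a') :=
    Real.rpow_le_rpow_of_exponent_ge ht (htr.trans (min_le_right _ _)) (by linarith)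
  have h3 : 0 ≤ t ^ ((d : ℝ) - a) := by positivity
  calc C * t ^ ((d : ℝ) - a) ≤ |C| * t ^ ((d : ℝ) - a) :=
        mul_le_mul_of_nonneg_right (le_abs_self C) h3
    _ ≤ _ := mul_le_mul_of_nonneg_left h2 (abs_nonneg C)

/-- the finite version -/
theorem finiteF [IsManifold 𝓘(ℝ, ES d) ∞ X] [CompactSpace X] [T2Space X] (hd : 0 < d)
    {I κ : Type} [Finite I] [Finite κ] [Nonempty κ]
    (A : κ → Set I) (T S : κ → Set (Form (ES d) X 2))
    (σ₀ : Form (ES d) X 2) (hσ₀ : IsSmooth σ₀) (hσ₀c : IsClosedForm σ₀)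
    (β : I → Form (ES d) X 1) (σ : I → Form (ES d) X 2) (hi1 : ∀ i, LocInt1 (β i))
    (hi : ∀ i, LocInt (σ i)) (hw : ∀ i, WeaklyPlusD (σ i) σ₀ (β i))
    (hM : ∀ i, ∃ a : ℝ, a < 1 ∧ MorreyGrowth a (σ i)) (hS : ∀ j, ∀ i ∈ A j, σ i ∈ S j)
    (hn : ∀ j x, NearlyTogether (T j) (S j) x) :
    ∃ w : I → Form (ES d) X 2, (∀ i, IsSmooth (w i) ∧ IsClosedForm (w i) ∧
      Cohomologous (w i) σ₀) ∧ ∀ j, ∀ ζ : Form (ES d) X 2,
        ζ ∈ convexHull ℝ (w '' (A j) ∪ T j) → NondegForm ζ := by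
  obtain ⟨a, ha, ha1, hM⟩ : ∃ a : ℝ, 0 ≤ a ∧ a < 1 ∧ ∀ i, MorreyGrowth a (σ i) := by
    choose b hb hb1 using hM
    obtain ⟨ε, hε, h1⟩ := VF.fin_pos (fun i => 1 - b i) fun i => by have := hb i; linarith
    refine ⟨max (1 - ε) 0, le_max_right _ _, max_lt (by linarith) one_pos, fun i => ?_⟩
    refine morrey_mono ?_ (hb1 i)
    have h2 := h1 i
    have h3 : b i ≤ 1 - ε := by linarith
    exact h3.trans (le_max_left _ _)
  have had : a ≤ d := by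
    have : (1 : ℝ) ≤ d := by exact_mod_cast hd
    linarith
  obtain ⟨α, w, h1, h2, h3, h4, h5, h6⟩ := VF.mainCF (d := d) (X := X) (P := A) ha ha1 had
    Pool.Agent.Y394.SY.t_SM Pool.Agent.Y689.SY.t_HH
    Pool.Agent.Y949.SY.t_PATCH2 Pool.Agent.Y891.SY.t_PATCHP (𝒯 := T) (K := univ) isClosed_univ
    (σ₀ := σ₀) ((smooth_iff σ₀).1 hσ₀) ((closed_iff σ₀).1 hσ₀c) (β := β) (σ := σ)
    ⟨fun i V φ hV hφ hp p hpV => absurd (mem_univ _) (hp p hpV),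
    fun i V φ hV hφ hp p hpV => absurd (mem_univ _) (hp p hpV),
    fun i V φ hV hφ hp p hpV => absurd (mem_univ _) (hp p hpV),
    fun i => lp_of hσ₀ (hi i) (hi1 i) (hw i), fun i => mor_of (hM i),
    fun j => vta_of ha1 had hσ₀ hσ₀c hi hi1 hw hM (hS j) (hn j)⟩
  obtain ⟨w, rfl⟩ : ∃ w' : I → Form (ES d) X 2, w' = w := ⟨w, rfl⟩
  refine ⟨w, fun i => ⟨(smooth_iff _).2 (h2 i), (closed_iff _).2 (h5 i), α i, w i - σ₀,
    (smooth_iff _).2 (h1 i), (smooth_iff _).2 (h3 i), (isD_iff _ _).2 (h4 i), ?_⟩, ?_⟩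
  · funext x
    show w i x = σ₀ x + (w i x - σ₀ x)
    abel
  · intro j ζ hζ
    exact nondeg_of fun z => h6 j ζ hζ z

end

section

variable {d : ℕ} {X : Type} [TopologicalSpace X] [ChartedSpace (ES d) X] {P : Type}
  [TopologicalSpace P]

attribute [local instance] cs mf

theorem familiesF [IsManifold 𝓘(ℝ, ES d) ∞ X] [CompactSpace X] [T2Space X] (hd : 0 < d)
    [CompactSpace P] [T2Space P] (Q N : Set P) (hQ : IsClosed Q) (hN : IsOpen N) (hQN : Q ⊆ N)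
    (r : P → P) (hr : ContinuousOn r N) (hrQ : ∀ p ∈ N, r p ∈ Q) (hrid : ∀ q ∈ Q, r q = q)
    (σ₀ : Form (ES d) X 2) (hσ₀ : IsSmooth σ₀) (hσ₀c : IsClosedForm σ₀)
    (η : P → Form (ES d) X 2) (hη : FamilyInClass σ₀ Q η)
    (β : P → Form (ES d) X 1) (σ : P → Form (ES d) X 2)
    (hi1 : ∀ p, LocInt1 (β p)) (hi : ∀ p, LocInt (σ p)) (hw : ∀ p, WeaklyPlusD (σ p) σ₀ (β p))
    (hM : ∀ p, ∃ a : ℝ, a < 1 ∧ MorreyGrowth a (σ p))
    (hn : ∀ p₀, ∃ G : Set P, IsOpen G ∧ p₀ ∈ G ∧ ∀ F : Set P, F.Finite → F ⊆ G → ∀ x,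
      NearlyTogether (η '' (Q ∩ G)) (σ '' F) x) :
    ∃ Ω : P → Form (ES d) X 2, FamilyInClass σ₀ univ Ω ∧ (∀ p, NondegForm (Ω p)) ∧
      ∀ q ∈ Q, Ω q = η q := by
  classical
  rcases isEmpty_or_nonempty P with hPe | hPn
  · exact ⟨η, ⟨fun p _ => (hPe.false p).elim, fun U φ hφ j q _ => (hPe.false q.1).elim⟩,
      fun p => (hPe.false p).elim, fun q _ => rfl⟩
  choose G hGo hGp hGn using hn
  -- the sets G
  obtain ⟨t, ht⟩ := CompactSpace.elim_nhds_subcover G (fun p => (hGo p).mem_nhds (hGp p))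
  have htc : ∀ p, ∃ k : {k // k ∈ t}, p ∈ G k.1 := by
    intro p
    have h1 : p ∈ ⋃ k ∈ t, G k := by
      rw [ht]
      trivial
    obtain ⟨k, hk, h2⟩ := mem_iUnion₂.1 h1
    exact ⟨⟨k, hk⟩, h2⟩
  haveI : Nonempty {k // k ∈ t} := ⟨(htc (Classical.arbitrary P)).choose⟩
  obtain ⟨B, hB1, hB2, hB3, hB4⟩ := VF.leb_sym (U := fun k : {k // k ∈ t} => G k.1)
    (fun k => hGo k.1) htc
  choose kp hkp using hB3
  -- the centres
  obtain ⟨s, hs⟩ := CompactSpace.elim_nhds_subcover (fun p => interior (B p))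
    (fun p => interior_mem_nhds.2 (hB1 p))
  have hsc : ∀ p, ∃ i : {i // i ∈ s}, p ∈ interior (B i.1) := by
    intro p
    have h1 : p ∈ ⋃ i ∈ s, interior (B i) := by
      rw [hs]
      trivial
    obtain ⟨i, hi, h2⟩ := mem_iUnion₂.1 h1
    exact ⟨⟨i, hi⟩, h2⟩
  obtain ⟨w, hw1, hw2⟩ := finiteF hd (I := {i // i ∈ s}) (κ := {k // k ∈ t})
    (fun j => {i | i.1 ∈ G j.1}) (fun j => η '' (Q ∩ G j.1))
    (fun j => σ '' {p | p ∈ s ∧ p ∈ G j.1}) σ₀ hσ₀ hσ₀c (fun i => β i.1) (fun i => σ i.1)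
    (fun i => hi1 i.1) (fun i => hi i.1) (fun i => hw i.1) (fun i => hM i.1)
    (fun j i hij => ⟨i.1, ⟨i.2, hij⟩, rfl⟩)
    (fun j x => hGn j.1 _ ((Finset.finite_toSet s).subset fun p hp => hp.1) (fun p hp => hp.2) x)
  -- the neighbourhood of Q
  obtain ⟨N', hN'⟩ : ∃ N' : Set P, N' = N ∩ interior {p | r p ∈ B p} := ⟨_, rfl⟩
  have hN'o : IsOpen N' := by
    rw [hN']
    exact hN.inter isOpen_interior
  have hQN' : Q ⊆ N' := by
    intro q hq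
    rw [hN']
    exact ⟨hQN hq, mem_interior_iff_mem_nhds.2 (hB4 N r hN hr q (hQN hq) (hrid q hq))⟩
  have hN'N : N' ⊆ N := by
    rw [hN']
    exact inter_subset_left
  have hN'B : ∀ p ∈ N', r p ∈ B p := by
    intro p hp
    rw [hN'] at hp
    have h1 : interior {p | r p ∈ B p} ⊆ {p | r p ∈ B p} := interior_subset
    exact h1 hp.2
  obtain ⟨Ω, k1, k2, k3, k4⟩ := VF.extendG (d := d) (X := X) hQ hN'o hQN' (hr.mono hN'N)
    (fun p hp => hrQ p (hN'N hp)) hrid (η := η) (fun U φ hU hφ => hη.2 U φ ⟨hU, hφ⟩)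
    (fun q hq => (smooth_iff _).1 (hη.1 q hq).1) (w := w)
    (fun i => (smooth_iff _).1 (hw1 i).1) (H := fun i : {i // i ∈ s} => interior (B i.1))
    (fun i => isOpen_interior) hsc
  refine ⟨Ω, ⟨fun p _ => ?_, fun U φ hφ => k2 U φ hφ.1 hφ.2⟩, fun p => ?_, fun q hq => k1 q hq⟩
  · exact k4 p _ (Pool.Agent.Q130.SF.convex_class (d := d) (X := X) σ₀)
      (fun hp => hη.1 _ (hrQ p (hN'N hp))) (fun i _ => hw1 i)
  · obtain ⟨A, hA⟩ : ∃ A : Set (Form (ES d) X 2),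
        A = w '' {i | i.1 ∈ G (kp p).1} ∪ η '' (Q ∩ G (kp p).1) := ⟨_, rfl⟩
    obtain ⟨C, hC⟩ : ∃ C : Set (Form (ES d) X 2), C = convexHull ℝ A := ⟨_, rfl⟩
    have hCc : Convex ℝ C := by
      rw [hC]
      exact convex_convexHull ℝ A
    have hAC : A ⊆ C := by
      rw [hC]
      exact subset_convexHull ℝ A
    have h1 : (Ω p : Form (ES d) X 2) ∈ C := by
      refine k4 p C hCc (fun hp => hAC ?_) fun i hpi => hAC ?_
      · rw [hA]
        exact Or.inr ⟨r p, ⟨hrQ p (hN'N hp), hkp p (hN'B p hp)⟩, rfl⟩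
      · rw [hA]
        exact Or.inl ⟨i, hkp p (hB2 _ _ (interior_subset hpi)), rfl⟩
    rw [hC, hA] at h1
    exact hw2 (kp p) _ h1

end

end Pool.Agent.U896.VFP
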