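import Pool.Agent.U896.VF.F1

/-!
# Nearly nondegenerate forms in a prescribed class: change of charts
-/

set_option autoImplicit false

open Set Filter Topology MeasureTheory
open scoped Manifold ContDiff ENNReal

noncomputable section

namespace Pool.Agent.U896.VF

open Pool.Agent.Y501.SY
open Pool.Agent.Y515.SY (comp_norm comp_pair lR lR_apply)
open Pool.Agent.U896.SW
open Pool.Agent.U896.SV
open Pool.Agent.U896.VM
open Pool.Agent.U896.VT (chT)

section

variable {d : ℕ} {X : Type} [TopologicalSpace X] [ChartedSpace (E d) X] [IsManifold (𝓡 d) ∞ X]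

theorem VTA.trans {I : Type} [Finite I] {A : Set I} {a : ℝ} (ha1 : a < 1) (had : a ≤ d)
    {𝒯 : Set (Form d X 2)} {w : I → Form d X 2} {z₁ z₂ : X}
    {p₁ p₂ : E d}
    (hp₁ : p₁ ∈ (chartAt (E d) z₁).target) (hp₂ : p₂ ∈ (chartAt (E d) z₂).target)
    (hp : (chartAt (E d) z₁).symm p₁ = (chartAt (E d) z₂).symm p₂)
    (hL : ∀ i, LCn (pb (chartAt (E d) z₁).symm (w i)) p₁)
    (hM : ∀ i, Mor a (pb (chartAt (E d) z₁).symm (w i)) p₁)
    (h : VTA A (chT 𝒯 z₁) (fun i => pb (chartAt (E d) z₁).symm (w i)) p₁) :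
    VTA A (chT 𝒯 z₂) (fun i => pb (chartAt (E d) z₂).symm (w i)) p₂ := by
  obtain ⟨c, R₁, hc, hR₁, h1⟩ := h
  obtain ⟨rM, CM, hrM, hCM, h2⟩ : ∃ r C : ℝ, 0 < r ∧ 0 ≤ C ∧ ∀ i, ∀ q ∈ Metric.ball p₁ r,
      ∀ t : ℝ, 0 < t → t ≤ r → ∫⁻ x in Metric.ball q t,
        ‖pb (chartAt (E d) z₁).symm (w i) x‖ₑ ≤ ENNReal.ofReal (C * t ^ ((d : ℝ) - a)) := by
    choose r' C' g1 g2 g3 using hM
    obtain ⟨r, hr, g4⟩ := fin_pos r' g1
    obtain ⟨M, hM⟩ := Finite.exists_le C'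
    refine ⟨r, max M 0, hr, le_max_right _ _, fun i q hq t ht htr => ?_⟩
    refine (g3 i q (Metric.ball_subset_ball (g4 i) hq) t ht (htr.trans (g4 i))).trans
      (ENNReal.ofReal_le_ofReal ?_)
    exact mul_le_mul_of_nonneg_right ((hM i).trans (le_max_left _ _)) (by positivity)
  obtain ⟨rL, hrL, hLL⟩ : ∃ r : ℝ, 0 < r ∧ ∀ i,
      LCl (pb (chartAt (E d) z₁).symm (w i)) (Metric.ball p₁ r) := by
    choose r' g1 g2 using hL
    obtain ⟨r, hr, g4⟩ := fin_pos r' g1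
    exact ⟨r, hr, fun i => (g2 i).mono (Metric.ball_subset_ball (g4 i))⟩
  obtain ⟨r, hrd⟩ : ∃ r, r = min R₁ (min rM (rL / 2)) := ⟨_, rfl⟩
  have hr : 0 < r := by
    rw [hrd]
    exact lt_min hR₁ (lt_min hrM (by positivity))
  have hr1 : r ≤ R₁ := by rw [hrd]; exact min_le_left _ _
  have hr2 : r ≤ rM := by rw [hrd]; exact (min_le_right _ _).trans (min_le_left _ _)
  have hr3 : r ≤ rL / 2 := by rw [hrd]; exact (min_le_right _ _).trans (min_le_right _ _)
  obtain ⟨ψ, r', M, μ, M', Λ, hr', hM0, hμ, hM'0, hΛ, hψ, hψm, hinj, hψM, hψμ, hψi, hψL, hpb⟩ :=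
    cc2 hp₁ hp₂ hp hr
  refine ⟨c / M' ^ 2, r' / 2, by positivity, by positivity, fun δ hδ => ?_⟩
  obtain ⟨δ₁, hδ₁⟩ : ∃ δ₁ : ℝ, δ₁ = δ / (2 * (M ^ 2 * μ⁻¹ * M ^ d)) := ⟨_, rfl⟩
  have hδ₁0 : 0 < δ₁ := by rw [hδ₁]; positivity
  obtain ⟨r₁, hr₁, h3⟩ := h1 δ₁ hδ₁0
  obtain ⟨k, hk⟩ : ∃ k : ℝ, k = 2 * M * Λ * μ⁻¹ * CM * M ^ ((d : ℝ) - a) := ⟨_, rfl⟩
  have hk0 : 0 ≤ k := by rw [hk]; positivity
  obtain ⟨r₅, hr₅, hk5⟩ : ∃ r₅ : ℝ, 0 < r₅ ∧ k * r₅ ^ (1 - a) < δ / 2 := by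
    have h4 : ContinuousAt (fun t : ℝ => k * t ^ (1 - a)) 0 :=
      (Real.continuousAt_rpow_const (0 : ℝ) (1 - a) (Or.inr (by linarith))).const_mul k
    have h5 : ∀ᶠ t in 𝓝 (0 : ℝ), k * t ^ (1 - a) < δ / 2 := by
      refine h4.eventually_lt_const ?_
      have e2 : (0 : ℝ) ^ (1 - a) = 0 := Real.zero_rpow (by linarith)
      simp only [e2, mul_zero]
      positivity
    have h6 : ∀ᶠ t in 𝓝[>] (0 : ℝ), 0 < t ∧ k * t ^ (1 - a) < δ / 2 :=
      Filter.Eventually.and self_mem_nhdsWithin (h5.filter_mono nhdsWithin_le_nhds)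
    exact h6.exists
  refine ⟨min (min (r' / 2) r₅) (min (r₁ / M) (r / M)),
    lt_min (lt_min (by positivity) hr₅) (lt_min (by positivity) (by positivity)),
    fun y hy t ht htr => ?_⟩
  have hq2 : dist y p₂ < r' / 2 := Metric.mem_ball.1 hy
  have ht2 : t ≤ r' / 2 := htr.trans ((min_le_left _ _).trans (min_le_left _ _))
  have ht5 : t ≤ r₅ := htr.trans ((min_le_left _ _).trans (min_le_right _ _))
  have ht3 : t ≤ r₁ / M := htr.trans ((min_le_right _ _).trans (min_le_left _ _))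
  have ht4 : t ≤ r / M := htr.trans ((min_le_right _ _).trans (min_le_right _ _))
  have hMt1 : M * t ≤ r₁ := by
    rw [le_div_iff₀ hM0] at ht3
    linarith
  have hMt2 : M * t ≤ r := by
    rw [le_div_iff₀ hM0] at ht4
    linarith
  have hsub : Metric.ball y t ⊆ Metric.ball p₂ r' := by
    intro x hx
    rw [Metric.mem_ball] at hx ⊢
    have := dist_triangle x y p₂
    linarith
  have hyb : y ∈ Metric.ball p₂ r' := hsub (Metric.mem_ball_self ht)
  have hψy : ψ y ∈ Metric.ball p₁ r := hψm hyb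
  have hψd : ∀ x ∈ Metric.ball y t, HasFDerivAt ψ (fderiv ℝ ψ x) x := fun x hx =>
    ((hψ.contDiffAt (Metric.isOpen_ball.mem_nhds (hsub hx))).differentiableAt
      (by simp)).hasFDerivAt
  have hmap : MapsTo ψ (Metric.ball y t) (Metric.ball (ψ y) (M * t)) := by
    intro x hx
    have h2 : ‖ψ x - ψ y‖ ≤ M * ‖x - y‖ :=
      Convex.norm_image_sub_le_of_norm_fderiv_le (𝕜 := ℝ)
        (fun y hy => (hψd y hy).differentiableAt) (fun y hy => hψM y (hsub hy))
        (convex_ball y t) (Metric.mem_ball_self ht) hx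
    rw [Metric.mem_ball, dist_eq_norm] at hx ⊢
    exact h2.trans_lt (mul_lt_mul_of_pos_left hx hM0)
  obtain ⟨C, hC, hCT, h4⟩ := h3 (ψ y) (Metric.ball_subset_ball hr1 hψy) (M * t) (by positivity) hMt1
  refine ⟨(fun η => η.compContinuousLinearMap (fderiv ℝ ψ y)) '' C,
    hC.comp hc.le hM'0 (hψi y hyb), ?_, ?_⟩
  · rintro _ ⟨τ, hτ, rfl⟩
    exact ⟨_, hCT _ ⟨τ, hτ, rfl⟩, (hpb τ y hyb).symm⟩
  intro i hi
  obtain ⟨σ, hσ⟩ : ∃ σ, σ = pb (chartAt (E d) z₁).symm (w i) := ⟨_, rfl⟩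
  have hpbw := hpb (w i)
  have h4 := h4 i hi
  have h2 := h2 i
  have hLL := hLL i
  rw [← hσ] at h2 hLL hpbw
  change ∫⁻ x in Metric.ball (ψ y) (M * t), ENNReal.ofReal
    (Metric.infDist (pb (chartAt (E d) z₁).symm (w i) x) C) ≤ _ at h4
  rw [← hσ] at h4
  have h5 := lint_pull (O := Metric.ball (ψ y) (M * t)) (O' := Metric.ball y t) (ψ := ψ)
    Metric.isOpen_ball hψd hmap (hinj.mono hsub) hμ (fun x hx => hψμ x (hsub hx))
    (fun x => ENNReal.ofReal (2 * M * (Λ * t)) * ‖σ x‖ₑ +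
      ENNReal.ofReal (M ^ 2) * ENNReal.ofReal (Metric.infDist (σ x) C))
  have hsubL : Metric.ball (ψ y) (M * t) ⊆ Metric.ball p₁ rL := by
    intro x hx
    rw [Metric.mem_ball] at hx hψy ⊢
    have := dist_triangle x (ψ y) p₁
    linarith
  have hmeas : AEMeasurable (fun x => ENNReal.ofReal (2 * M * (Λ * t)) * ‖σ x‖ₑ)
      (volume.restrict (Metric.ball (ψ y) (M * t))) :=
    ((hLL.meas.mono_measure (Measure.restrict_mono hsubL le_rfl)).enorm).const_mul _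
  have h6 := h2 (ψ y) (Metric.ball_subset_ball hr2 hψy) (M * t) (by positivity)
    (hMt2.trans hr2)
  calc ∫⁻ x in Metric.ball y t, ENNReal.ofReal (Metric.infDist
        (pb (chartAt (E d) z₂).symm (w i) x) ((fun η => η.compContinuousLinearMap (fderiv ℝ ψ y)) '' C))
      ≤ ∫⁻ x in Metric.ball y t, (ENNReal.ofReal (2 * M * (Λ * t)) * ‖σ (ψ x)‖ₑ +
          ENNReal.ofReal (M ^ 2) * ENNReal.ofReal (Metric.infDist (σ (ψ x)) C)) := by
        refine setLIntegral_mono' Metric.isOpen_ball.measurableSet fun x hx => ?_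
        rw [hpbw x (hsub hx), ← ofReal_norm, ← ENNReal.ofReal_mul (by positivity),
          ← ENNReal.ofReal_mul (by positivity), ← ENNReal.ofReal_add (by positivity)
            (mul_nonneg (by positivity) Metric.infDist_nonneg)]
        refine ENNReal.ofReal_le_ofReal ?_
        refine infDist_comp hM0 hC.ne (hψM y hyb) (hψM x (hsub hx)) ?_ _
        refine (hψL x (hsub hx) y hyb).trans (mul_le_mul_of_nonneg_left ?_ hΛ)
        rw [Metric.mem_ball, dist_eq_norm] at hx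
        exact hx.le
    _ ≤ _ := h5
    _ = ENNReal.ofReal μ⁻¹ * (ENNReal.ofReal (2 * M * (Λ * t)) *
          (∫⁻ x in Metric.ball (ψ y) (M * t), ‖σ x‖ₑ) + ENNReal.ofReal (M ^ 2) *
          ∫⁻ x in Metric.ball (ψ y) (M * t), ENNReal.ofReal (Metric.infDist (σ x) C)) := by
        rw [lintegral_add_left' hmeas, lintegral_const_mul' _ _ ENNReal.ofReal_ne_top,
          lintegral_const_mul' _ _ ENNReal.ofReal_ne_top]
    _ ≤ ENNReal.ofReal μ⁻¹ * (ENNReal.ofReal (2 * M * (Λ * t)) *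
          ENNReal.ofReal (CM * (M * t) ^ ((d : ℝ) - a)) + ENNReal.ofReal (M ^ 2) *
          ENNReal.ofReal (δ₁ * (M * t) ^ d)) := by gcongr
    _ = ENNReal.ofReal (μ⁻¹ * (2 * M * (Λ * t) * (CM * (M * t) ^ ((d : ℝ) - a)) +
          M ^ 2 * (δ₁ * (M * t) ^ d))) := by
        rw [← ENNReal.ofReal_mul (by positivity), ← ENNReal.ofReal_mul (by positivity),
          ← ENNReal.ofReal_add (by positivity) (by positivity),
          ← ENNReal.ofReal_mul (by positivity)]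
    _ ≤ ENNReal.ofReal (δ * t ^ d) := by
        refine ENNReal.ofReal_le_ofReal ?_
        have e1 : μ⁻¹ * (2 * M * (Λ * t) * (CM * (M * t) ^ ((d : ℝ) - a))) =
            k * t ^ (1 - a) * t ^ d := by
          have e2 : t * t ^ ((d : ℝ) - a) = t ^ (1 - a) * t ^ d := by
            rw [← Real.rpow_natCast t d, ← Real.rpow_add ht]
            nth_rewrite 1 [← Real.rpow_one t]
            rw [← Real.rpow_add ht]
            congr 1
            ring
          rw [hk, Real.mul_rpow hM0.le ht.le]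
          calc μ⁻¹ * (2 * M * (Λ * t) * (CM * (M ^ ((d : ℝ) - a) * t ^ ((d : ℝ) - a))))
              = 2 * M * Λ * μ⁻¹ * CM * M ^ ((d : ℝ) - a) * (t * t ^ ((d : ℝ) - a)) := by ring
            _ = _ := by rw [e2]; ring
        have e3 : μ⁻¹ * (M ^ 2 * (δ₁ * (M * t) ^ d)) = δ / 2 * t ^ d := by
          rw [hδ₁, mul_pow]
          field_simp
        have e4 : k * t ^ (1 - a) ≤ δ / 2 := by
          refine le_trans ?_ hk5.le
          exact mul_le_mul_of_nonneg_left (Real.rpow_le_rpow ht.le ht5 (by linarith)) hk0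
        rw [mul_add, e1, e3]
        have e5 : 0 ≤ t ^ d := by positivity
        nlinarith

end

end Pool.Agent.U896.VF
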