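import Pool.Agent.U896.VF.F2
import Pool.Agent.U896.SC.L2
import Pool.Agent.U896.SC.P8

/-!
# Families of nearly nondegenerate forms: one step of the regularization
-/

set_option autoImplicit false

open Set Filter Topology MeasureTheory
open scoped Manifold ContDiff ENNReal

noncomputable section

namespace Pool.Agent.U896.VF

open Pool.Agent.Y501.SY
open Pool.Agent.U896.SW (NullX pb_val)
open Pool.Agent.U896.SV (Mor bump_pow)
open Pool.Agent.U896.SC
open Pool.Agent.U896.VT (chT)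

section

variable {d : ℕ} {X : Type} [TopologicalSpace X] [ChartedSpace (E d) X]

/-- finite families of nearly nondegenerate forms `σ_i = σ₀ + dβ_i` of Morrey growth, which are
smooth on the complement of `K`, and limits of smooth pairs -/
structure UCF {I κ : Type} (P : κ → Set I) (𝒯 : κ → Set (Form d X 2)) (a : ℝ) (σ₀ : Form d X 2)
    (β : I → Form d X 1) (σ : I → Form d X 2) (K : Set X) : Prop where
  smβ : ∀ i, SmoothOff (β i) K
  smooth : ∀ i, SmoothOff (σ i) K
  isD : ∀ i, IsDOff (β i) (σ i - σ₀) K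
  lp : ∀ i, ∀ z : X, ∀ p ∈ (chartAt (E d) z).target,
    LPp (pb (chartAt (E d) z).symm (β i)) (pb (chartAt (E d) z).symm (σ i - σ₀)) p
  mor : ∀ i, ∀ z : X, ∀ p ∈ (chartAt (E d) z).target, Mor a (pb (chartAt (E d) z).symm (σ i)) p
  vt : ∀ j, ∀ z : X, ∀ p ∈ (chartAt (E d) z).target,
    VTA (P j) (chT (𝒯 j) z) (fun i => pb (chartAt (E d) z).symm (σ i)) p

theorem stepCF {I κ : Type} [Finite I] [Finite κ] [Nonempty κ] {P : κ → Set I} {a : ℝ}
    (ha : 0 ≤ a) (ha1 : a < 1) (had : a ≤ d)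
    (hSm : S_SM) (hHH : S_HH) (hPa : S_PATCH2) (hPp : S_PATCHP)
    [IsManifold (𝓡 d) ∞ X] [T2Space X] {𝒯 : κ → Set (Form d X 2)}
    {σ₀ : Form d X 2} (hσ₀ : IsSmooth σ₀) (hσ₀c : IsClosedForm σ₀) (z : X) :
    ∃ W : Set X, IsOpen W ∧ z ∈ W ∧ ∀ (K : Set X) (β : I → Form d X 1) (w : I → Form d X 2),
      IsClosed K → UCF P 𝒯 a σ₀ β w K →
      ∃ (β' : I → Form d X 1) (w' : I → Form d X 2), UCF P 𝒯 a σ₀ β' w' (K \ W) := by
  -- the ball
  obtain ⟨r, hr, hball⟩ : ∃ r : ℝ, 0 < r ∧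
      Metric.closedBall (chartAt (E d) z z) r ⊆ (chartAt (E d) z).target := by
    obtain ⟨r, hr, h6⟩ := Metric.nhds_basis_closedBall.mem_iff.1
      ((chartAt (E d) z).open_target.mem_nhds (mem_chart_target (E d) z))
    exact ⟨r, hr, h6⟩
  obtain ⟨p₀, hp₀⟩ : ∃ p₀, p₀ = chartAt (E d) z z := ⟨_, rfl⟩
  rw [← hp₀] at hball
  obtain ⟨e, he⟩ : ∃ e, e = chartAt (E d) z := ⟨_, rfl⟩
  have hzs : z ∈ e.source := by rw [he]; exact mem_chart_source (E d) z
  have hez : e z = p₀ := by rw [he, hp₀]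
  have hVt : Metric.closedBall p₀ r ⊆ e.target := fun p hp => by
    rw [he]; exact hball hp
  have hV : Metric.ball p₀ r ⊆ e.target := Metric.ball_subset_closedBall.trans hVt
  have hN : IsCompact (Metric.closedBall p₀ r) := isCompact_closedBall p₀ r
  have hW : IsOpen (e.source ∩ e ⁻¹' Metric.ball p₀ (r / 2)) :=
    e.isOpen_inter_preimage Metric.isOpen_ball
  have hO : IsOpen (e.source ∩ e ⁻¹' Metric.ball p₀ r) :=
    e.isOpen_inter_preimage Metric.isOpen_ball
  obtain ⟨W, hWd⟩ : ∃ W, W = e.source ∩ e ⁻¹' Metric.ball p₀ (r / 2) := ⟨_, rfl⟩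
  obtain ⟨O, hOd⟩ : ∃ O, O = e.source ∩ e ⁻¹' Metric.ball p₀ r := ⟨_, rfl⟩
  rw [← hWd] at hW
  rw [← hOd] at hO
  have heO : e '' O = Metric.ball p₀ r := by
    apply Subset.antisymm
    · rintro _ ⟨x, hx, rfl⟩
      rw [hOd] at hx
      exact hx.2
    · intro p hp
      refine ⟨e.symm p, ?_, e.right_inv (hV hp)⟩
      rw [hOd]
      refine ⟨e.map_target (hV hp), ?_⟩
      rw [mem_preimage, e.right_inv (hV hp)]
      exact hp
  have hOs : O ⊆ e.source := by rw [hOd]; exact inter_subset_left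
  have hWO : W ⊆ O := by
    rw [hWd, hOd]
    exact inter_subset_inter_right _ (preimage_mono (Metric.ball_subset_ball (by linarith)))
  have hWs : ∀ p ∈ Metric.ball p₀ r, e.symm p ∈ W ↔ p ∈ Metric.ball p₀ (r / 2) := by
    intro p hp
    rw [hWd]
    constructor
    · rintro ⟨_, h⟩
      rwa [mem_preimage, e.right_inv (hV hp)] at h
    · intro h
      refine ⟨e.map_target (hV hp), ?_⟩
      rwa [mem_preimage, e.right_inv (hV hp)]
  -- the cut-off function
  obtain ⟨φ, hφ⟩ : ∃ φ : ContDiffBump p₀, φ.rOut = r / 2 :=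
    ⟨⟨r / 4, r / 2, by positivity, by linarith⟩, rfl⟩
  obtain ⟨χ, D₁, hD₁, hχs, hχnn, hχ1, hχcs, hχt, hχ0, hχD⟩ := bump_pow φ ha ha1
  rw [hφ] at hχt hχ0
  have htV : Metric.closedBall p₀ (r / 2) ⊆ Metric.ball p₀ r :=
    Metric.closedBall_subset_ball (by linarith)
  refine ⟨W, hW, ?_, ?_⟩
  · rw [hWd]
    refine ⟨hzs, ?_⟩
    rw [mem_preimage, hez]
    exact Metric.mem_ball_self (by linarith)
  intro K β w hK hUT
  obtain ⟨k, hk⟩ : ∃ k, k = Metric.ball p₀ r ∩ e.symm ⁻¹' K := ⟨_, rfl⟩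
  have hVk : Metric.ball p₀ r \ k = Metric.ball p₀ r ∩ e.symm ⁻¹' Kᶜ := by
    rw [hk]
    ext p
    simp only [Set.mem_sdiff, mem_inter_iff, mem_preimage, mem_compl_iff]
    tauto
  have hVko : IsOpen (Metric.ball p₀ r \ k) := by
    rw [hVk]
    have h1 : IsOpen (e.target ∩ e.symm ⁻¹' Kᶜ) := e.isOpen_inter_preimage_symm hK.isOpen_compl
    have h2 : Metric.ball p₀ r ∩ e.symm ⁻¹' Kᶜ = Metric.ball p₀ r ∩ (e.target ∩ e.symm ⁻¹' Kᶜ) := by
      rw [← inter_assoc, inter_eq_left.2 hV]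
    rw [h2]
    exact Metric.isOpen_ball.inter h1
  have hsK : ∀ p ∈ Metric.ball p₀ r \ k, e.symm p ∉ K := by
    intro p hp
    rw [hVk] at hp
    exact hp.2
  have hsymm : ContMDiffOn (𝓡 d) (𝓡 d) ∞ (chartAt (E d) z).symm (Metric.ball p₀ r) :=
    contMDiffOn_chart_symm.mono (by rw [← he]; exact hV)
  have hs1 : ∀ i, ContDiffOn ℝ ∞ (pb (chartAt (E d) z).symm (w i)) (Metric.ball p₀ r \ k) :=
    fun i => hUT.smooth i _ _ hVko (hsymm.mono sdiff_subset) (by rw [← he]; exact hsK)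
  have hb1 : ∀ i, ContDiffOn ℝ ∞ (pb (chartAt (E d) z).symm (β i)) (Metric.ball p₀ r \ k) :=
    fun i => hUT.smβ i _ _ hVko (hsymm.mono sdiff_subset) (by rw [← he]; exact hsK)
  have hs2 : ∀ i, ∀ p ∈ Metric.ball p₀ r \ k, extDeriv (pb (chartAt (E d) z).symm (β i)) p =
      pb (chartAt (E d) z).symm (w i) p - pb (chartAt (E d) z).symm σ₀ p := fun i p hp =>
    hUT.isD i _ _ hVko (hsymm.mono sdiff_subset) (by rw [← he]; exact hsK) p hp
  have hs₀ : ContDiffOn ℝ ∞ (pb (chartAt (E d) z).symm σ₀) (Metric.ball p₀ r) :=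
    hσ₀ _ _ Metric.isOpen_ball hsymm
  have hs₀c : ∀ p ∈ Metric.ball p₀ r, extDeriv (pb (chartAt (E d) z).symm σ₀) p = 0 := by
    intro p hp
    rw [hσ₀c _ _ Metric.isOpen_ball hsymm p hp, pb_zero]
    rfl
  obtain ⟨b', s', g1, g2, g3, g4, g4', g6, g7, g8⟩ := regCF hSm hHH (P := P)
    (V := Metric.ball p₀ r) (k := k) (T := fun j => chT (𝒯 j) z)
    (χ := χ) (s₀ := pb (chartAt (E d) z).symm σ₀)
    (s := fun i => pb (chartAt (E d) z).symm (w i))
    (b := fun i => pb (chartAt (E d) z).symm (β i)) (a := a) (D₁ := D₁) ha ha1 hD₁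
    Metric.isOpen_ball hVko (fun i p hp => hUT.lp i z p (by rw [← he]; exact hV hp))
    (fun i p hp => hUT.mor i z p (by rw [← he]; exact hV hp))
    (fun j p hp => hUT.vt j z p (by rw [← he]; exact hV hp))
    hχs hχnn hχ1 hχD hχcs (by rw [hχt]; exact htV) hs₀ hs₀c hb1 hs1 hs2
  choose β₁ w₁ f1 f2 f3 hlc hout f4 using fun i => patchC (z := z) hPa hPp hσ₀ hσ₀c hr
    (by rw [← hp₀]; exact hball)
    (χ := χ) (by rw [← hp₀]; exact hχ0) hK (hUT.smβ i) (hUT.smooth i) (hUT.isD i) (hUT.lp i)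
    (b' := b' i) (s' := s' i)
    (by rw [← hp₀, ← he, ← hk]; exact g1 i) (by rw [← hp₀, ← he, ← hk]; exact g2 i)
    (by rw [← hp₀, ← he, ← hk]; have g3' := g3 i; rw [← he] at g3'; exact g3')
    (g4 i) (g4' i) (by rw [← hp₀]; exact g6 i) (W := W) (O := O)
    (by rw [← hp₀, ← he]; exact hWd) (by rw [← hp₀, ← he]; exact hOd)
  have hmr : ∀ i, ∀ z₂ : X, ∀ p ∈ (chartAt (E d) z₂).target,
      Mor a (pb (chartAt (E d) z₂).symm (w₁ i)) p := by
    intro i z₂ p hp
    by_cases hx : (chartAt (E d) z₂).symm p ∈ O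
    · have hxb : e ((chartAt (E d) z₂).symm p) ∈ Metric.ball p₀ r := by
        rw [← heO]
        exact ⟨_, hx, rfl⟩
      have h1 : Mor a (pb (chartAt (E d) z).symm (w₁ i))
          (e ((chartAt (E d) z₂).symm p)) := by
        obtain ⟨R', hR', hRb⟩ := Metric.isOpen_iff.1 Metric.isOpen_ball _ hxb
        refine (g7 i _ hxb).congr hR' fun q hq => ?_
        exact f4 i q (by rw [← hp₀]; exact hRb hq)
      refine Mor.trans had (p₁ := e ((chartAt (E d) z₂).symm p)) ?_ hp ?_ h1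
      · rw [← he]
        exact hV hxb
      · rw [← he]
        exact e.left_inv (hOs hx)
    · have hcl : IsClosed (e.symm '' Metric.closedBall p₀ (r / 2)) :=
        ((isCompact_closedBall p₀ (r / 2)).image_of_continuousOn
          (e.continuousOn_symm.mono (htV.trans hV))).isClosed
      have hsub : e.symm '' Metric.closedBall p₀ (r / 2) ⊆ O := by
        rintro _ ⟨q, hq, rfl⟩
        rw [hOd]
        refine ⟨e.map_target (hV (htV hq)), ?_⟩
        rw [mem_preimage, e.right_inv (hV (htV hq))]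
        exact htV hq
      have h1 : ∀ᶠ q in 𝓝 p, (chartAt (E d) z₂).symm q ∉ e.symm '' Metric.closedBall p₀ (r / 2) := by
        have h2 : ContinuousAt (chartAt (E d) z₂).symm p := (chartAt (E d) z₂).continuousAt_symm hp
        exact h2.eventually (hcl.isOpen_compl.mem_nhds fun h => hx (hsub h))
      obtain ⟨R', hR', hRb⟩ := Metric.eventually_nhds_iff_ball.1 h1
      refine (hUT.mor i z₂ p hp).congr hR' fun q hq => ?_
      have hq' := hRb q hq
      apply pb_val
      by_cases hqO : (chartAt (E d) z₂).symm q ∈ O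
      · have hqb : e ((chartAt (E d) z₂).symm q) ∈ Metric.ball p₀ r := by
          rw [← heO]
          exact ⟨_, hqO, rfl⟩
        have h3 : χ (e ((chartAt (E d) z₂).symm q)) = 0 := by
          rw [hχ0]
          intro h
          apply hq'
          exact ⟨_, Metric.ball_subset_closedBall h, e.left_inv (hOs hqO)⟩
        have h4 := pb_inj2 (w₁ i) (w i) (z := z) (p := e ((chartAt (E d) z₂).symm q))
          (by rw [← he]; exact hV hqb) (by rw [f4 i _ (by rw [← hp₀]; exact hqb), g4' i _ h3])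
        rw [← he, e.left_inv (hOs hqO)] at h4
        exact h4
      · exact hout i _ hqO
  have hlcn : ∀ i, ∀ z₂ : X, ∀ p ∈ (chartAt (E d) z₂).target,
      Pool.Agent.U896.SW.LCn (pb (chartAt (E d) z₂).symm (w₁ i)) p := by
    intro i z₂ p hp
    obtain ⟨h1, h2⟩ := closed_chart hσ₀ hσ₀c z₂
    exact LPp.toLCn (chartAt (E d) z₂).open_target hp (hlc i z₂ p hp) h1 h2
  have hvr : ∀ j, ∀ z₂ : X, ∀ p ∈ (chartAt (E d) z₂).target,
      VTA (P j) (chT (𝒯 j) z₂) (fun i => pb (chartAt (E d) z₂).symm (w₁ i)) p := by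
    intro j z₂ p hp
    by_cases hx : (chartAt (E d) z₂).symm p ∈ O
    · have hxb : e ((chartAt (E d) z₂).symm p) ∈ Metric.ball p₀ r := by
        rw [← heO]
        exact ⟨_, hx, rfl⟩
      have h1 : VTA (P j) (chT (𝒯 j) z) (fun i => pb (chartAt (E d) z).symm (w₁ i))
          (e ((chartAt (E d) z₂).symm p)) := by
        obtain ⟨R', hR', hRb⟩ := Metric.isOpen_iff.1 Metric.isOpen_ball _ hxb
        refine (g8 j _ hxb).congr hR' fun i q hq => ?_
        exact f4 i q (by rw [← hp₀]; exact hRb hq)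
      refine VTA.trans ha1 had (p₁ := e ((chartAt (E d) z₂).symm p)) ?_ hp ?_
        (fun i => hlcn i z _ ?_) (fun i => hmr i z _ ?_) h1
      · rw [← he]
        exact hV hxb
      · rw [← he]
        exact e.left_inv (hOs hx)
      · rw [← he]
        exact hV hxb
      · rw [← he]
        exact hV hxb
    · have hcl : IsClosed (e.symm '' Metric.closedBall p₀ (r / 2)) :=
        ((isCompact_closedBall p₀ (r / 2)).image_of_continuousOn
          (e.continuousOn_symm.mono (htV.trans hV))).isClosed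
      have hsub : e.symm '' Metric.closedBall p₀ (r / 2) ⊆ O := by
        rintro _ ⟨q, hq, rfl⟩
        rw [hOd]
        refine ⟨e.map_target (hV (htV hq)), ?_⟩
        rw [mem_preimage, e.right_inv (hV (htV hq))]
        exact htV hq
      have h1 : ∀ᶠ q in 𝓝 p, (chartAt (E d) z₂).symm q ∉ e.symm '' Metric.closedBall p₀ (r / 2) := by
        have h2 : ContinuousAt (chartAt (E d) z₂).symm p := (chartAt (E d) z₂).continuousAt_symm hp
        exact h2.eventually (hcl.isOpen_compl.mem_nhds fun h => hx (hsub h))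
      obtain ⟨R', hR', hRb⟩ := Metric.eventually_nhds_iff_ball.1 h1
      refine (hUT.vt j z₂ p hp).congr hR' fun i q hq => ?_
      have hq' := hRb q hq
      apply pb_val
      by_cases hqO : (chartAt (E d) z₂).symm q ∈ O
      · have hqb : e ((chartAt (E d) z₂).symm q) ∈ Metric.ball p₀ r := by
          rw [← heO]
          exact ⟨_, hqO, rfl⟩
        have h3 : χ (e ((chartAt (E d) z₂).symm q)) = 0 := by
          rw [hχ0]
          intro h
          apply hq'
          exact ⟨_, Metric.ball_subset_closedBall h, e.left_inv (hOs hqO)⟩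
        have h4 := pb_inj2 (w₁ i) (w i) (z := z) (p := e ((chartAt (E d) z₂).symm q))
          (by rw [← he]; exact hV hqb) (by rw [f4 i _ (by rw [← hp₀]; exact hqb), g4' i _ h3])
        rw [← he, e.left_inv (hOs hqO)] at h4
        exact h4
      · exact hout i _ hqO
  exact ⟨β₁, w₁, ⟨f1, f2, f3, hlc, hmr, hvr⟩⟩

end

end Pool.Agent.U896.VF
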