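import Pool.Agent.U896.VF.F3

/-!
# Families of nearly nondegenerate forms: the main theorem for finite families
-/

set_option autoImplicit false

open Set Filter Topology MeasureTheory
open scoped Manifold ContDiff ENNReal

noncomputable section

namespace Pool.Agent.U896.VF

open Pool.Agent.Y501.SY
open Pool.Agent.U896.SC
open Pool.Agent.U896.VM
open Pool.Agent.U896.VT (chT)
open Pool.Agent.U896.SV (Mor)

section

variable {d : ℕ}

/-- the convex combinations of smooth nearly nondegenerate forms -/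
theorem vta_smooth {I : Type} [Finite I] {A : Set I} {T : Set (E d → (E d) [⋀^Fin 2]→L[ℝ] ℝ)}
    {s : I → E d → (E d) [⋀^Fin 2]→L[ℝ] ℝ}
    {p : E d} (hs : ∀ i, ContinuousAt (s i) p) (h : VTA A T s p) :
    ∃ c : ℝ, 0 < c ∧ ∀ η ∈ convexHull ℝ ((fun i => s i p) '' A ∪ (fun τ => τ p) '' T),
      NDg c η := by
  obtain ⟨c, R, hc, hR, h1⟩ := h
  obtain ⟨B, hB⟩ : ∃ B, B = (volume (Metric.ball (0 : E d) 1)).toReal := ⟨_, rfl⟩
  have hB0 : 0 < B := by
    rw [hB]
    exact ENNReal.toReal_pos (Metric.measure_ball_pos volume _ one_pos).ne'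
      measure_ball_lt_top.ne
  obtain ⟨r, hr, h2⟩ := h1 (c / 16 * B) (by positivity)
  obtain ⟨r', hr', h3⟩ : ∃ r' : ℝ, 0 < r' ∧ ∀ i, ∀ x ∈ Metric.ball p r',
      dist (s i x) (s i p) < c / 16 := by
    choose r₁ g1 g2 using fun i => Metric.continuousAt_iff.1 (hs i) (c / 16) (by positivity)
    obtain ⟨r', hr', g3⟩ := fin_pos r₁ g1
    exact ⟨r', hr', fun i x hx => g2 i (Metric.ball_subset_ball (g3 i) hx)⟩
  obtain ⟨t, ht, htr, htr'⟩ : ∃ t : ℝ, 0 < t ∧ t ≤ r ∧ t ≤ r' :=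
    ⟨min r r', lt_min hr hr', min_le_left _ _, min_le_right _ _⟩
  obtain ⟨C, hC, hCT, h4⟩ := h2 p (Metric.mem_ball_self hR) t ht htr
  have h5 : ∀ i ∈ A, Metric.infDist (s i p) C ≤ c / 4 := by
    intro i hi
    have h4 := h4 i hi
    by_contra h
    rw [not_le] at h
    have h6 : ∀ x ∈ Metric.ball p t, ENNReal.ofReal (3 * c / 16) ≤
        ENNReal.ofReal (Metric.infDist (s i x) C) := by
      intro x hx
      refine ENNReal.ofReal_le_ofReal ?_
      have h7 := h3 i x (Metric.ball_subset_ball htr' hx)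
      have h8 := Metric.infDist_le_infDist_add_dist (s := C) (x := s i p) (y := s i x)
      rw [dist_comm] at h8
      linarith
    have h7 : ENNReal.ofReal (3 * c / 16) * volume (Metric.ball p t) ≤
        ENNReal.ofReal (c / 16 * B * t ^ d) := by
      refine le_trans ?_ h4
      rw [← setLIntegral_const]
      exact setLIntegral_mono' Metric.isOpen_ball.measurableSet h6
    rw [Measure.addHaar_ball_of_pos _ _ ht, finrank_euclideanSpace_fin,
      ← ENNReal.ofReal_toReal (measure_ball_lt_top (μ := volume) (x := (0 : E d)) (r := 1)).ne,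
      ← hB, ← ENNReal.ofReal_mul (by positivity), ← ENNReal.ofReal_mul (by positivity),
      ENNReal.ofReal_le_ofReal_iff (by positivity)] at h7
    have h8 : 0 < t ^ d * B := by positivity
    nlinarith
  have hcth := hC.cth (τ := c / 4) (by positivity)
  refine ⟨c / 2, by positivity, fun η hη => ?_⟩
  refine (hcth.nd η ?_).mono (by linarith)
  refine convexHull_min ?_ hcth.conv hη
  rintro _ (⟨i, hi, rfl⟩ | ⟨τ, hτ, rfl⟩)
  · rw [Metric.mem_cthickening_iff, ← ENNReal.ofReal_toReal (Metric.infEDist_ne_top hC.ne)]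
    exact ENNReal.ofReal_le_ofReal (h5 i hi)
  · exact Metric.self_subset_cthickening _ (hCT τ hτ)

end

section

variable {d : ℕ} {X : Type} [TopologicalSpace X] [ChartedSpace (E d) X] [IsManifold (𝓡 d) ∞ X]

theorem mainCF {I κ : Type} [Finite I] [Finite κ] [Nonempty κ] {P : κ → Set I} {a : ℝ}
    (ha : 0 ≤ a) (ha1 : a < 1) (had : a ≤ d)
    (hSm : S_SM) (hHH : S_HH) (hPa : S_PATCH2) (hPp : S_PATCHP) [CompactSpace X] [T2Space X]
    {𝒯 : κ → Set (Form d X 2)} {K : Set X} (hK : IsClosed K)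
    {σ₀ : Form d X 2} (hσ₀ : IsSmooth σ₀) (hσ₀c : IsClosedForm σ₀) {β : I → Form d X 1}
    {σ : I → Form d X 2} (hσ : UCF P 𝒯 a σ₀ β σ K) :
    ∃ (α : I → Form d X 1) (w : I → Form d X 2), (∀ i, IsSmooth (α i)) ∧ (∀ i, IsSmooth (w i)) ∧
      (∀ i, IsSmooth (w i - σ₀)) ∧ (∀ i, IsD (α i) (w i - σ₀)) ∧
      (∀ i, IsClosedForm (w i)) ∧
      ∀ j, ∀ ζ ∈ convexHull ℝ (w '' (P j) ∪ 𝒯 j), ∀ z : X, ∃ c : ℝ, 0 < c ∧
        NDg c (pb (chartAt (E d) z).symm ζ (chartAt (E d) z z)) := by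
  classical
  choose W hWo hWz hW using fun z : X =>
    stepCF (X := X) (I := I) (κ := κ) (P := P) ha ha1 had hSm hHH hPa hPp (𝒯 := 𝒯) hσ₀ hσ₀c z
  have hfin : ∀ t : Finset X, ∃ (β' : I → Form d X 1) (w : I → Form d X 2),
      UCF P 𝒯 a σ₀ β' w (K \ ⋃ z ∈ t, W z) := by
    intro t
    induction t using Finset.induction_on with
    | empty =>
      have : K \ ⋃ z ∈ (∅ : Finset X), W z = K := by simp
      refine ⟨β, σ, ?_⟩
      rw [this]
      exact hσ
    | insert y t _ ih =>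
      obtain ⟨β', w, hw⟩ := ih
      have hop : IsOpen (⋃ z ∈ t, W z) := isOpen_biUnion fun z _ => hWo z
      have hcl : IsClosed (K \ ⋃ z ∈ t, W z) := by
        rw [sdiff_eq]
        exact hK.inter hop.isClosed_compl
      obtain ⟨β'', w', hw'⟩ := hW y _ β' w hcl hw
      have h1 : ∀ S : Set X, S \ ⋃ z ∈ insert y t, W z = (S \ ⋃ z ∈ t, W z) \ W y := by
        intro S
        rw [Finset.set_biUnion_insert, union_comm, sdiff_sdiff_left]
        rfl
      refine ⟨β'', w', ?_⟩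
      rw [h1]
      exact hw'
  obtain ⟨t, -, htc⟩ := hK.isCompact.elim_nhds_subcover W
    (fun z _ => (hWo z).mem_nhds (hWz z))
  obtain ⟨β', w, hw⟩ := hfin t
  have hempty : K \ ⋃ z ∈ t, W z = ∅ := by
    rw [sdiff_eq_empty]
    exact htc
  rw [hempty] at hw
  have hβs : ∀ i, IsSmooth (β' i) := fun i V φ hV hφ =>
    hw.smβ i V φ hV hφ fun p _ => notMem_empty _
  have hws : ∀ i, IsSmooth (w i) := fun i V φ hV hφ =>
    hw.smooth i V φ hV hφ fun p _ => notMem_empty _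
  have hρ : ∀ i, IsSmooth (w i - σ₀) := by
    intro i
    have h7 := (hws i).add (hσ₀.smul (-1))
    have h8 : w i + (-1 : ℝ) • σ₀ = w i - σ₀ := by
      funext x
      ext u
      change w i x u + (-1 : ℝ) * σ₀ x u = w i x u - σ₀ x u
      ring
    rwa [h8] at h7
  have hd' : ∀ i, IsD (β' i) (w i - σ₀) := fun i V φ hV hφ =>
    hw.isD i V φ hV hφ fun p _ => notMem_empty _
  have hcl : ∀ i, IsClosedForm (w i) := by
    intro i
    have h1 := hσ₀c.add (closed_of_isD (hβs i) (hρ i) (hd' i)) hσ₀ (hρ i)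
    rwa [add_zero, add_sub_cancel] at h1
  refine ⟨β', w, hβs, hws, hρ, hd', hcl, fun j ζ hζ z => ?_⟩
  have hz := mem_chart_target (E d) z
  obtain ⟨c, hc, h1⟩ := vta_smooth (s := fun i => pb (chartAt (E d) z).symm (w i))
    (fun i => (((hws i) _ _ (chartAt (E d) z).open_target
    (contMDiffOn_chart_symm (x := z) (n := ∞) (I := 𝓡 d))).continuousOn).continuousAt
    ((chartAt (E d) z).open_target.mem_nhds hz)) (hw.vt j z _ hz)
  refine ⟨c, hc, h1 _ ?_⟩
  let L : Form d X 2 →ₗ[ℝ] (E d) [⋀^Fin 2]→L[ℝ] ℝ :=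
    { toFun := fun ζ => pb (chartAt (E d) z).symm ζ (chartAt (E d) z z)
      map_add' := fun ζ ζ' => by rw [pb_add]; rfl
      map_smul' := fun c ζ => by rw [pb_smul]; rfl }
  have h2 : L ζ ∈ L '' convexHull ℝ (w '' (P j) ∪ 𝒯 j) := mem_image_of_mem L hζ
  rw [LinearMap.image_convexHull] at h2
  refine convexHull_mono ?_ h2
  rintro _ ⟨_, (⟨i, hi, rfl⟩ | hτ), rfl⟩
  · exact Or.inl ⟨i, hi, rfl⟩
  · rename_i τ
    exact Or.inr ⟨_, ⟨τ, hτ, rfl⟩, rfl⟩

end

end Pool.Agent.U896.VF
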